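import Mathlib
import Pool.Agent.Lib.Pdbc030.Final

open Filter Topology

namespace Pool.Agent.Results.MP_dbc030_an.DifferentiableInR

/-- Let `X ⊆ ℂ` be any compact set and let `f : X → ℂ` be complex differentiable at every point
of `X` in the sense that the limit of `(f z - f a) / (z - a)` as `z → a`, `z ∈ X`, `z ≠ a`, exists
for every `a ∈ X` (no continuity of the derivative is needed).  Then `f` is a uniform limit on `X`
of rational functions `p / q` whose denominator has no zero on `X`. -/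
theorem result {X : Set ℂ} (hX : IsCompact X) (f : X → ℂ)
    (hf : ∀ a : X, ∃ d : ℂ,
      Tendsto (fun z : X => (f z - f a) / ((z : ℂ) - (a : ℂ))) (𝓝[≠] a) (𝓝 d)) :
    ∀ ε > 0, ∃ p q : Polynomial ℂ, (∀ z ∈ X, q.eval z ≠ 0) ∧
      ∀ z : X, ‖f z - p.eval (z : ℂ) / q.eval (z : ℂ)‖ < ε := by
  classical
  intro ε hε
  set F : ℂ → ℂ := fun z => if h : z ∈ X then f ⟨z, h⟩ else 0 with hF
  have hFX : ∀ z : X, F z = f z := by
    intro z
    simp only [hF, z.2, dif_pos, Subtype.coe_eta]
  have hd : DifferentiableOn ℂ F X := by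
    intro a ha
    obtain ⟨d, hd⟩ := hf ⟨a, ha⟩
    have h1 : HasDerivWithinAt F d X a := by
      rw [hasDerivWithinAt_iff_tendsto_slope, Metric.tendsto_nhdsWithin_nhds]
      rw [Metric.tendsto_nhdsWithin_nhds] at hd
      intro η hη
      obtain ⟨δ, hδ, hδ'⟩ := hd η hη
      refine ⟨δ, hδ, fun {z} hz hza => ?_⟩
      have hz1 : z ∈ X := hz.1
      have hz2 : z ≠ a := fun h => hz.2 h
      have h2 := hδ' (x := ⟨z, hz1⟩) (by
        intro h
        exact hz2 (congrArg Subtype.val h)) hza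
      rw [slope_def_field]
      have e1 : F z = f ⟨z, hz1⟩ := hFX ⟨z, hz1⟩
      have e2 : F a = f ⟨a, ha⟩ := hFX ⟨a, ha⟩
      rw [e1, e2]
      exact h2
    exact h1.differentiableWithinAt
  obtain ⟨p, q, hq, hpq⟩ := Pool.Agent.Lib.Pdbc030.rational_approx hX hd hε
  refine ⟨p, q, hq, fun z => ?_⟩
  have := hpq z z.2
  rw [hFX z] at this
  exact this

end Pool.Agent.Results.MP_dbc030_an.DifferentiableInR
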